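import Pool.Agent.R448.LTop

set_option autoImplicit false

/-!
# The linear arboricity conjecture for blow-ups of regular graphs

`H931R3.LA.la G` is the linear arboricity (the same expression as in the frozen statement S07085).
For `f : W → V` with all fibres of size `m`, `G.comap f` is the blow-up of `G` by `m`: every vertex of
`G` is replaced by `m` pairwise non-adjacent vertices, every edge by a complete bipartite graph (the
lexicographic product of `G` and the empty graph with `m` vertices).
-/

namespace Pool.Agent.Results.MP_0a041d_co.Blowups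

open SimpleGraph H931R3.LA

/-- **The linear arboricity conjecture for blow-ups.**

(a) For every `r ≥ 1` there is an `M ≥ 1` such that for every `r`-regular graph `G` and every positive
multiple `m` of `M` the linear arboricity of the blow-up of `G` by `m`, which is `r m`-regular, is
`⌈(r m + 1) / 2⌉`.
(b) Let `G` be `2 k`-regular and `c`-colourable, `m` a multiple of `k`, and let all prime powers
exactly dividing `m` be at least `c`.  Then the linear arboricity of the blow-up of `G` by `m` is
`k m + 1 = ⌈(2 k m + 1) / 2⌉`.  (For bipartite `G` the only condition is that `k` divides `m`.)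
(c) Let `G` be `d`-regular and `c`-colourable, `m` a multiple of `d`, and let all prime powers exactly
dividing `m` be at least `c`.  Then the linear arboricity of the blow-up of `G` by `2 m` is
`d m + 1 = ⌈(2 d m + 1) / 2⌉`. -/
theorem result :
    (∀ r : ℕ, 0 < r → ∃ M : ℕ, 0 < M ∧ ∀ m, 0 < m → M ∣ m →
      ∀ (V : Type) [Finite V] [Nonempty V] (G : SimpleGraph V),
        (∀ v, (G.neighborSet v).ncard = r) →
        ∀ (W : Type) [Finite W] (f : W → V), (∀ v, {x | f x = v}.ncard = m) →
          la (G.comap f) = (r * m + 2) / 2) ∧
    (∀ (V : Type) [Finite V] [Nonempty V] (G : SimpleGraph V) (k m c : ℕ), 0 < k → 0 < m → k ∣ m →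
      (∀ p, p.Prime → p ∣ m → c ≤ p ^ m.factorization p) →
      (∀ v, (G.neighborSet v).ncard = 2 * k) → G.Colorable c →
      ∀ (W : Type) [Finite W] (f : W → V), (∀ v, {x | f x = v}.ncard = m) →
        la (G.comap f) = k * m + 1) ∧
    (∀ (V : Type) [Finite V] [Nonempty V] (G : SimpleGraph V) (d m c : ℕ), 0 < d → 0 < m → d ∣ m →
      (∀ p, p.Prime → p ∣ m → c ≤ p ^ m.factorization p) →
      (∀ v, (G.neighborSet v).ncard = d) → G.Colorable c →
      ∀ (W : Type) [Finite W] (f : W → V), (∀ v, {x | f x = v}.ncard = 2 * m) →
        la (G.comap f) = d * m + 1) := by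
  refine ⟨?_, ?_, ?_⟩
  · intro r hr
    exact Pool.Agent.R448.LP.blow_all r hr
  · intro V _ _ G k m c hk hm hkm hpp hdeg hcol W _ f hf
    exact Pool.Agent.R448.LP.blow_even G k m c hk hm hkm hpp hdeg hcol f hf
  · intro V _ _ G d m c hd hm hdm hpp hdeg hcol W _ f hf
    exact Pool.Agent.R448.LP.blow_any G d m c hd hm hdm hpp hdeg hcol f hf

end Pool.Agent.Results.MP_0a041d_co.Blowups
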