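import Pool.Agent.R448.LDLay

set_option autoImplicit false

/-!
# Linear arboricity of graphs with a balanced cyclic layout

`H931R3.LA.la G` is the linear arboricity (the same expression as in the frozen statement S07085).
-/

namespace Pool.Agent.Results.MP_0a041d_co.CyclicLayouts

open SimpleGraph H931R3.LA Pool.Agent.W111.LAR Pool.Agent.R448.LD

/-- `v` lies at least `1` and at most `j` layers ahead of `u` in the labelling `f` by `ℤ/N`. -/
def Ahead {V : Type} {N : ℕ} (f : V → ZMod N) (j : ℕ) (u v : V) : Prop :=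
  ∃ s : ℕ, 1 ≤ s ∧ s ≤ j ∧ f v = f u + s

/-- **Linear arboricity and cyclic layouts.**  Let the vertices of the finite graph `G` be labelled
by `ℤ/N` (several vertices may have the same label) such that every edge joins two vertices one of
which lies at least `1` and at most `j` layers ahead of the other one, and every vertex has at most
`k` neighbours at most `j` layers ahead and at most `k` neighbours at most `j` layers behind.
Then `la G ≤ k + t` whenever `k ≤ t (⌊N / j⌋ - 1)`.  If `G` is `2 k`-regular and `(k + 1) j ≤ N`, then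
`la G = k + 1 = ⌈(2 k + 1) / 2⌉`. -/
theorem result :
    ∀ (V : Type) [Finite V] (G : SimpleGraph V) (k j N : ℕ) (f : V → ZMod N), 1 ≤ j →
      (∀ u v, G.Adj u v → Ahead f j u v ∨ Ahead f j v u) →
      (∀ u, {v | G.Adj u v ∧ Ahead f j u v}.ncard ≤ k) →
      (∀ u, {v | G.Adj u v ∧ Ahead f j v u}.ncard ≤ k) →
      (∀ t : ℕ, k ≤ t * (N / j - 1) → la G ≤ k + t) ∧
      (Nonempty V → 0 < k → (∀ v, (G.neighborSet v).ncard = 2 * k) → (k + 1) * j ≤ N →
        la G = k + 1) := by
  intro V _ G k j N f hj hadj hout hin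
  have key : ∀ t : ℕ, k ≤ t * (N / j - 1) → Cov G (k + t) := by
    intro t ht
    refine cov_layers G (fun u v => G.Adj u v ∧ Ahead f j u v) k j N t hj f ?_ hout ?_ ?_ ht
    · intro u v
      constructor
      · intro h
        rcases hadj u v h with h1 | h1
        · exact Or.inl ⟨h, h1⟩
        · exact Or.inr ⟨h.symm, h1⟩
      · rintro (h | h)
        · exact h.1
        · exact h.1.symm
    · intro v
      have h1 : {w | G.Adj w v ∧ Ahead f j w v} = {w | G.Adj v w ∧ Ahead f j w v} := by
        ext w
        exact ⟨fun h => ⟨h.1.symm, h.2⟩, fun h => ⟨h.1.symm, h.2⟩⟩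
      rw [h1]
      exact hin v
    · rintro u v ⟨_, h⟩
      exact h
  refine ⟨fun t ht => la_le (key t ht), ?_⟩
  intro _ hk hreg hN
  have h1 := key 1 (by
    have h2 : k + 1 ≤ N / j := (Nat.le_div_iff_mul_le hj).2 hN
    omega)
  have h3 : (2 * k + 2) / 2 = k + 1 := by omega
  rw [← h3] at h1 ⊢
  exact la_eq_of_cov (by omega) hreg h1

end Pool.Agent.Results.MP_0a041d_co.CyclicLayouts
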